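import Pool.Agent.H63.PK.Targets

/-!
Row GXP: the generic combination of primitive weight systems is a primitive weight system.
-/

set_option autoImplicit false

open Finset

namespace Pool.Agent.H62.PK

open Pool.Agent.H59.LIN Pool.Agent.H13.LN Pool.Agent.H63.PK

theorem gx_eq {R : Type} [CommRing R] {r : ℕ → ℕ} (x : (d : ℕ) → Fin (r d) → List ℕ → R)
    (d : ℕ) (l : List ℕ) (h : l.length = 2 * d) :
    gx x l = ∑ i : Fin (r d), MvPolynomial.C (x d i l) *
      (MvPolynomial.X (⟨d, i⟩ : Σ d : ℕ, Fin (r d)) : MvPolynomial (Σ d : ℕ, Fin (r d)) R) := by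
  have h2 : d = l.length / 2 := by omega
  subst h2
  rfl

theorem gxp : T_GXP := by
  intro R _ r x hx d
  refine ⟨⟨?_, ?_, ?_, ?_⟩, ?_⟩
  · intro l f hl hf
    rw [gx_eq x d _ (by rw [List.length_map]; exact hl.1), gx_eq x d _ hl.1]
    exact Finset.sum_congr rfl fun i _ => by rw [(hx d i).ws.relab l f hl hf]
  · intro a l hl
    rw [gx_eq x d (a :: l) hl.1, gx_eq x d (l ++ [a]) (by
      have := hl.1
      rw [List.length_cons] at this
      rw [List.length_append, List.length_singleton]
      exact this)]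
    exact Finset.sum_congr rfl fun i _ => by rw [(hx d i).ws.rot a l hl]
  · intro A B a hl
    rw [gx_eq x d _ hl.1]
    exact Finset.sum_eq_zero fun i _ => by rw [(hx d i).ws.isol A B a hl, map_zero, zero_mul]
  · intro A B C a b hl
    have hlen := hl.1
    have e2 : (A ++ b :: a :: (B ++ a :: C)).length = 2 * d := by
      rw [← hlen]; simp
    have e3 : (A ++ a :: (B ++ a :: b :: C)).length = 2 * d := by
      rw [← hlen]; simp; omega
    have e4 : (A ++ a :: (B ++ b :: a :: C)).length = 2 * d := by
      rw [← hlen]; simp; omega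
    rw [gx_eq x d _ hlen, gx_eq x d _ e2, gx_eq x d _ e3, gx_eq x d _ e4, ← Finset.sum_sub_distrib,
      ← Finset.sum_add_distrib, ← Finset.sum_sub_distrib]
    refine Finset.sum_eq_zero fun i _ => ?_
    rw [← sub_mul, ← add_mul, ← sub_mul, ← map_sub, ← map_add, ← map_sub,
      (hx d i).ws.four A B C a b hl, map_zero, zero_mul]
  · intro a b l m ha hb hl hm hlm
    rw [gx_eq x d _ hlm.1]
    exact Finset.sum_eq_zero fun i _ => by rw [(hx d i).prim a b l m ha hb hl hm hlm, map_zero, zero_mul]

end Pool.Agent.H62.PK
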