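import Pool.Agent.H63.PK.Targets

/-!
Row IDL: linear combinations of induced functions are induced.
-/

set_option autoImplicit false

open Finset

namespace Pool.Agent.H62.PK

open Pool.Agent.H59.LIN Pool.Agent.H13.LN Pool.Agent.H63.PK

theorem ext_lin {R : Type} [CommRing R] {ι : Type} (S : Finset ι) {n : ℕ} (f : ι → Wd n → ℤ)
    (c : ι → R) (w : SWd n) : ∀ u : Wd n,
    ext (fun z => ∑ i ∈ S, c i * ((f i z : ℤ) : R)) u w = ∑ i ∈ S, c i * ((ext (f i) u w : ℤ) : R) := by
  induction w with
  | nil => intro u; rfl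
  | cons x w ih =>
    intro u
    obtain ⟨i, b⟩ := x
    cases b with
    | some b => exact ih _
    | none =>
      change ext _ (u ++ [(i, true)]) w - ext _ (u ++ [(i, false)]) w =
        ∑ j ∈ S, c j * (((ext (f j) (u ++ [(i, true)]) w - ext (f j) (u ++ [(i, false)]) w : ℤ)) : R)
      rw [ih, ih, ← Finset.sum_sub_distrib]
      refine Finset.sum_congr rfl fun j _ => ?_
      rw [Int.cast_sub, mul_sub]

theorem idl : T_IDL := by
  classical
  intro R _ d ι S W c h
  choose! v hv using h
  refine ⟨fun n w => ∑ i ∈ S, c i * ((v i n w : ℤ) : R), ?_, ?_, ?_⟩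
  · intro x y hxy hk
    exact Finset.sum_congr rfl fun i hi => by rw [(hv i hi).1 x y hxy hk]
  · intro n w hk hd
    rw [ext_lin]
    refine Finset.sum_eq_zero fun i hi => ?_
    rw [(hv i hi).2.1 n w hk hd, Int.cast_zero, mul_zero]
  · intro n w hk hd
    rw [ext_lin]
    exact Finset.sum_congr rfl fun i hi => by rw [(hv i hi).2.2 n w hk hd]

end Pool.Agent.H62.PK
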